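import Pool.Agent.H.MP_f0f681_an.A

set_option autoImplicit false
set_option maxHeartbeats 400000

namespace Pool.Agent.H.MP_9fb650_an

open Filter Topology InnerProductSpace Pool.Agent.H.MP_f0f681_an

attribute [-instance] CStarModule.toInner

variable {G : Type} [Group G]

def Rp (f : G → ℂ) (c : ℝ) : Prop := ∃ (ρ : URep G) (ξ η : ρ.V), f = coef ρ ξ η ∧ ‖ξ‖ * ‖η‖ ≤ c

theorem Rp.mem {f : G → ℂ} {c : ℝ} (h : Rp f c) : f ∈ BG G := by
  obtain ⟨ρ, ξ, η, e, -⟩ := h
  exact ⟨ρ, ξ, η, e⟩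

theorem Rp.le {f : G → ℂ} {c : ℝ} (h : Rp f c) (g : G) : ‖f g‖ ≤ c := by
  obtain ⟨ρ, ξ, η, rfl, e⟩ := h
  refine (norm_inner_le_norm (𝕜 := ℂ) η (ρ.π g ξ)).trans ?_
  rw [LinearIsometryEquiv.norm_map, mul_comm]
  exact e

theorem Rp.mono {f : G → ℂ} {c d : ℝ} (h : Rp f c) (e : c ≤ d) : Rp f d := by
  obtain ⟨ρ, ξ, η, a, b⟩ := h
  exact ⟨ρ, ξ, η, a, b.trans e⟩

theorem Rp.bal {f : G → ℂ} {c : ℝ} (h : Rp f c) :
    ∃ (ρ : URep G) (ξ η : ρ.V), f = coef ρ ξ η ∧ ‖ξ‖ ^ 2 ≤ c ∧ ‖η‖ ^ 2 ≤ c := by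
  obtain ⟨ρ, ξ, η, rfl, e⟩ := h
  have c0 : 0 ≤ c := le_trans (by positivity) e
  by_cases h1 : ξ = 0
  · exact ⟨ρ, 0, 0, by funext g; simp [coef, h1], by simpa using c0, by simpa using c0⟩
  by_cases h2 : η = 0
  · exact ⟨ρ, 0, 0, by funext g; simp [coef, h2], by simpa using c0, by simpa using c0⟩
  have a := norm_pos_iff.2 h1
  have b := norm_pos_iff.2 h2
  set t : ℝ := √(‖η‖ / ‖ξ‖) with ht
  have t0 : 0 < t := Real.sqrt_pos.2 (by positivity)
  have t2 : t ^ 2 = ‖η‖ / ‖ξ‖ := Real.sq_sqrt (by positivity)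
  refine ⟨ρ, (t : ℂ) • ξ, ((t⁻¹ : ℝ) : ℂ) • η, ?_, ?_, ?_⟩
  · funext g
    have : (t : ℂ) ≠ 0 := by exact_mod_cast t0.ne'
    simp only [coef, map_smul, inner_smul_left, inner_smul_right, Complex.conj_ofReal]
    push_cast
    field_simp
  · rw [norm_smul, mul_pow, Complex.norm_real, Real.norm_of_nonneg t0.le, t2]
    refine le_trans (le_of_eq ?_) e
    field_simp
  · rw [norm_smul, mul_pow, Complex.norm_real, Real.norm_of_nonneg (by positivity), inv_pow, t2]
    refine le_trans (le_of_eq ?_) e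
    field_simp

theorem lp_norm_sq {ι : Type} {E : ι → Type} [∀ i, NormedAddCommGroup (E i)] (v : lp E 2) :
    HasSum (fun i => ‖v i‖ ^ 2) (‖v‖ ^ 2) := by
  have := lp.hasSum_norm (p := 2) (by norm_num) v
  simpa using this

theorem mem_lp {ι : Type} {E : ι → Type} [∀ i, NormedAddCommGroup (E i)] {v : ∀ i, E i}
    (h : Summable fun i => ‖v i‖ ^ 2) : Memℓp v 2 := memℓp_gen (by simpa using h)

theorem Rp_tsum {ι : Type} (f : ι → G → ℂ) (c : ι → ℝ) (hc : Summable c) (h : ∀ i, Rp (f i) (c i)) :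
    Rp (fun g => ∑' i, f i g) (∑' i, c i) := by
  choose ρ ξ η e h1 h2 using fun i => (h i).bal
  let l : G → lp (fun i => (ρ i).V) 2 →ₗ[ℂ] lp (fun i => (ρ i).V) 2 := fun g =>
    { toFun := fun v => ⟨fun i => (ρ i).π g (v i), mem_lp (by
        simpa using (lp_norm_sq v).summable)⟩
      map_add' := fun v w => by ext i; simp
      map_smul' := fun a v => by ext i; simp }
  have la : ∀ g v i, l g v i = (ρ i).π g (v i) := fun _ _ _ => rfl
  have s1 : Summable fun i => ‖ξ i‖ ^ 2 := hc.of_nonneg_of_le (fun _ => by positivity) h1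
  have s2 : Summable fun i => ‖η i‖ ^ 2 := hc.of_nonneg_of_le (fun _ => by positivity) h2
  let x : lp (fun i => (ρ i).V) 2 := ⟨ξ, mem_lp s1⟩
  let y : lp (fun i => (ρ i).V) 2 := ⟨η, mem_lp s2⟩
  refine ⟨mkRep _ l (fun v => by ext i; simp [la]) (fun g k v => by ext i; simp [la])
    (fun g v => ?_), x, y, ?_, ?_⟩
  · have a := lp_norm_sq (l g v)
    simp only [la, LinearIsometryEquiv.norm_map] at a
    exact (pow_left_inj₀ (norm_nonneg _) (norm_nonneg _) two_ne_zero).1 (a.unique (lp_norm_sq v))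
  · funext g
    simp only [e]
    exact (lp.inner_eq_tsum (𝕜 := ℂ) y (l g x)).symm
  · have a : ‖x‖ ^ 2 ≤ ∑' i, c i := hasSum_le h1 (lp_norm_sq x) hc.hasSum
    have b : ‖y‖ ^ 2 ≤ ∑' i, c i := hasSum_le h2 (lp_norm_sq y) hc.hasSum
    change ‖x‖ * ‖y‖ ≤ _
    nlinarith [sq_nonneg (‖x‖ - ‖y‖)]

theorem Rp.add {f g : G → ℂ} {c d : ℝ} (h : Rp f c) (k : Rp g d) : Rp (f + g) (c + d) := by
  have := Rp_tsum (fun b : Bool => if b then f else g) (fun b => if b then c else d)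
    .of_finite (by rintro (_ | _) <;> simpa)
  simp only [tsum_fintype, Fintype.sum_bool, if_true, Bool.false_eq_true, if_false] at this
  exact this

theorem Rp.smul {f : G → ℂ} {c : ℝ} (h : Rp f c) (a : ℂ) : Rp (a • f) (‖a‖ * c) := by
  obtain ⟨ρ, ξ, η, rfl, e⟩ := h
  refine ⟨ρ, a • ξ, η, by funext g; simp [coef, inner_smul_right], ?_⟩
  rw [norm_smul, mul_assoc]
  exact mul_le_mul_of_nonneg_left e (norm_nonneg _)

theorem Rp.mul {f g : G → ℂ} {c d : ℝ} (h : Rp f c) (k : Rp g d) : Rp (f * g) (c * d) := by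
  obtain ⟨ρ, ξ, η, rfl, e⟩ := h
  obtain ⟨σ, x, y, rfl, e'⟩ := k
  obtain ⟨τ, t, h1, h2, -, h4⟩ := tens ρ σ
  refine ⟨τ, t ξ x, t η y, by funext g; simp [coef, h1, h2], ?_⟩
  rw [h4, h4, mul_mul_mul_comm]
  exact mul_le_mul e e' (by positivity) (le_trans (by positivity) e)

theorem Rp_one : Rp (1 : G → ℂ) 1 :=
  ⟨triv G, (1 : ℂ), (1 : ℂ), one_eq, by
    change ‖(1 : ℂ)‖ * ‖(1 : ℂ)‖ ≤ 1
    simp⟩

theorem ex_Rp {f : G → ℂ} (h : f ∈ BG G) : ∃ c, Rp f c := by
  obtain ⟨ρ, ξ, η, e⟩ := h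
  exact ⟨_, ρ, ξ, η, e, le_rfl⟩

def sub (G : Type) [Group G] : Subalgebra ℂ (G → ℂ) where
  carrier := BG G
  mul_mem' hf hg := by
    obtain ⟨c, hc⟩ := ex_Rp hf
    obtain ⟨d, hd⟩ := ex_Rp hg
    exact (hc.mul hd).mem
  add_mem' := BG_add
  algebraMap_mem' a := by
    rw [Algebra.algebraMap_eq_smul_one]
    exact BG_smul a Rp_one.mem

def BA (G : Type) [Group G] : Type := sub G

noncomputable instance : CommRing (BA G) := inferInstanceAs (CommRing (sub G))
noncomputable instance : Algebra ℂ (BA G) := inferInstanceAs (Algebra ℂ (sub G))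

noncomputable def nrm (f : BA G) : ℝ := sInf {c | Rp f.1 c}

theorem bdd (f : G → ℂ) : BddBelow {c | Rp f c} :=
  ⟨0, fun _ hc => (norm_nonneg _).trans (Rp.le hc 1)⟩

theorem nrm_le {f : BA G} {c : ℝ} (h : Rp f.1 c) : nrm f ≤ c := csInf_le (bdd _) h

theorem le_nrm (f : BA G) (g : G) : ‖f.1 g‖ ≤ nrm f :=
  le_csInf (ex_Rp f.2) fun _ hc => Rp.le hc g

theorem nrm_nonneg (f : BA G) : 0 ≤ nrm f := (norm_nonneg _).trans (le_nrm f 1)

theorem Rp_nrm (f : BA G) {ε : ℝ} (hε : 0 < ε) : Rp f.1 (nrm f + ε) := by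
  obtain ⟨c, hc, h⟩ := exists_lt_of_csInf_lt (ex_Rp f.2) (show nrm f < nrm f + ε by linarith)
  exact Rp.mono hc h.le

theorem nrm_smul (a : ℂ) (f : BA G) : nrm (a • f) ≤ ‖a‖ * nrm f := by
  refine le_of_forall_pos_le_add fun ε hε => ?_
  have h := nrm_le (f := a • f) ((Rp_nrm f (show 0 < ε / (‖a‖ + 1) by positivity)).smul a)
  have : ‖a‖ * (ε / (‖a‖ + 1)) ≤ ε := by
    rw [mul_div_assoc', div_le_iff₀ (by positivity)]
    nlinarith
  linarith

noncomputable instance : NormedAddCommGroup (BA G) := AddGroupNorm.toNormedAddCommGroup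
  { toFun := nrm
    map_zero' := le_antisymm (by simpa using nrm_smul 0 (0 : BA G)) (nrm_nonneg _)
    add_le' := fun f g => le_of_forall_pos_le_add fun ε hε => by
      have := nrm_le (f := f + g) ((Rp_nrm f (half_pos hε)).add (Rp_nrm g (half_pos hε)))
      linarith
    neg' := fun f => le_antisymm (by simpa using nrm_smul (-1) f)
      (by simpa using nrm_smul (-1) (-f))
    eq_zero_of_map_eq_zero' := fun f hf => Subtype.ext (funext fun g =>
      norm_le_zero_iff.1 ((le_nrm f g).trans hf.le)) }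

theorem norm_eq (f : BA G) : ‖f‖ = nrm f := rfl

noncomputable instance : NormedCommRing (BA G) :=
  { (inferInstance : NormedAddCommGroup (BA G)), (inferInstance : CommRing (BA G)) with
    norm_mul_le := fun f g => by
      change nrm (f * g) ≤ nrm f * nrm g
      have : Tendsto (fun ε : ℝ => (nrm f + ε) * (nrm g + ε)) (𝓝[>] 0) (𝓝 (nrm f * nrm g)) := by
        have c : Continuous fun ε : ℝ => (nrm f + ε) * (nrm g + ε) := by fun_prop
        simpa using (c.tendsto 0).mono_left (nhdsWithin_le_nhds (s := Set.Ioi 0))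
      refine ge_of_tendsto this ?_
      filter_upwards [self_mem_nhdsWithin] with ε hε
      exact nrm_le (f := f * g) ((Rp_nrm f hε).mul (Rp_nrm g hε)) }

noncomputable instance : NormedAlgebra ℂ (BA G) :=
  { (inferInstance : Algebra ℂ (BA G)) with norm_smul_le := nrm_smul }

theorem val_sum (u : ℕ → BA G) (n : ℕ) (g : G) :
    (∑ i ∈ Finset.range n, u i).1 g = ∑ i ∈ Finset.range n, (u i).1 g := by
  induction n with
  | zero => rfl
  | succ n ih => rw [Finset.sum_range_succ, Finset.sum_range_succ, ← ih]; rfl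

instance : CompleteSpace (BA G) := by
  refine NormedAddCommGroup.completeSpace_of_summable_imp_tendsto fun u hu => ?_
  have hc : Summable fun i => ‖u i‖ + (1 / 2 : ℝ) ^ i := hu.add summable_geometric_two
  have R : ∀ n, Rp (fun g => ∑' i, (u (i + n)).1 g) (∑' i, (‖u (i + n)‖ + (1 / 2 : ℝ) ^ (i + n))) :=
    fun n => Rp_tsum _ _ ((summable_nat_add_iff n).2 hc) fun i => Rp_nrm _ (by positivity)
  refine ⟨⟨_, (R 0).mem⟩, ?_⟩
  rw [tendsto_iff_norm_sub_tendsto_zero]
  refine squeeze_zero (fun _ => norm_nonneg _) (fun n => ?_)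
    (tendsto_sum_nat_add fun i => ‖u i‖ + (1 / 2 : ℝ) ^ i)
  rw [norm_sub_rev]
  refine nrm_le ?_
  convert R n using 1
  funext g
  have s : Summable fun i => (u i).1 g := .of_norm_bounded hu fun i => le_nrm (u i) g
  change ∑' i, (u (i + 0)).1 g - (∑ i ∈ Finset.range n, u i).1 g = _
  rw [val_sum, sub_eq_iff_eq_add']
  exact (s.sum_add_tsum_nat_add n).symm

theorem char_le (χ : WeakDual.characterSpace ℂ (BA G)) {f : BA G} {c : ℝ} (h : Rp f.1 c) :
    ‖χ f‖ ≤ c :=
  (AlgHom.norm_apply_le_self_mul_norm_one χ f).trans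
    ((mul_le_of_le_one_right (norm_nonneg _) (nrm_le (f := 1) Rp_one)).trans (nrm_le h))

theorem natural (f : BA G)
    (h : ∀ χ : WeakDual.characterSpace ℂ (BA G), χ f ∈ closure (Set.range f.1)) :
    {z : ℂ | ¬∃ k ∈ BG G, ∀ g : G, (f.1 g - z) * k g = 1} = closure (Set.range f.1) := by
  ext z
  constructor
  · intro hz
    have : z ∈ spectrum ℂ f := by
      rintro ⟨u, hu⟩
      refine hz ⟨(-(↑u⁻¹ : BA G)).1, (-(↑u⁻¹ : BA G)).2, fun g => ?_⟩
      have := congrArg (fun k : BA G => k.1 g) u.mul_inv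
      rw [hu] at this
      change (z - f.1 g) * (↑u⁻¹ : BA G).1 g = 1 at this
      change (f.1 g - z) * -((↑u⁻¹ : BA G).1 g) = 1
      linear_combination this
    obtain ⟨χ, rfl⟩ := WeakDual.CharacterSpace.mem_spectrum_iff_exists.1 this
    exact h χ
  · rintro hz ⟨k, hk, e⟩
    obtain ⟨c, hc⟩ := ex_Rp hk
    have c0 : 0 ≤ c := (norm_nonneg _).trans (hc.le 1)
    obtain ⟨_, ⟨g, rfl⟩, hg⟩ := Metric.mem_closure_iff.1 hz (1 / (c + 1)) (by positivity)
    have a := congrArg norm (e g)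
    rw [norm_mul, norm_one, ← dist_eq_norm, dist_comm] at a
    rw [lt_div_iff₀ (by positivity)] at hg
    nlinarith [hc.le g, dist_nonneg (x := z) (y := f.1 g)]

theorem Rp_l2 (h : lp (fun _ : G => ℂ) 2) : Rp (fun g => h g) ‖h‖ := by
  classical
  let l : G → lp (fun _ : G => ℂ) 2 →ₗ[ℂ] lp (fun _ : G => ℂ) 2 := fun a =>
    { toFun := fun v => ⟨fun w => v (w * a), mem_lp
        ((Equiv.mulRight a).summable_iff.2 (lp_norm_sq v).summable)⟩
      map_add' := fun _ _ => rfl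
      map_smul' := fun _ _ => rfl }
  have la : ∀ g v i, l g v i = v (i * g) := fun _ _ _ => rfl
  refine ⟨mkRep _ l (fun v => by ext i; simp [la]) (fun g k v => by ext i; simp [la, mul_assoc])
    (fun g v => ?_), h, lp.single 2 1 1, ?_, ?_⟩
  · have a := lp_norm_sq (l g v)
    have b := (Equiv.mulRight g).hasSum_iff.2 (lp_norm_sq v)
    exact (pow_left_inj₀ (norm_nonneg _) (norm_nonneg _) two_ne_zero).1 (a.unique b)
  · funext g
    have := lp.inner_single_left (𝕜 := ℂ) (1 : G) (1 : ℂ) (l g h)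
    rw [la, one_mul] at this
    simp only [RCLike.inner_apply, map_one, mul_one] at this
    exact this.symm
  · change ‖h‖ * ‖(lp.single 2 1 1 : lp (fun _ : G => ℂ) 2)‖ ≤ _
    rw [lp.norm_single (by norm_num)]
    simp

theorem char_l2 (χ : WeakDual.characterSpace ℂ (BA G)) :
    (∃ g, ∀ f : BA G, χ f = f.1 g) ∨
      ∀ f : BA G, Summable (fun g => ‖f.1 g‖ ^ 2) → χ f = 0 := by
  classical
  let J : lp (fun _ : G => ℂ) 2 →L[ℂ] BA G := LinearMap.mkContinuous
    { toFun := fun h => ⟨fun g => h g, (Rp_l2 h).mem⟩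
      map_add' := fun _ _ => rfl
      map_smul' := fun _ _ => rfl } 1 fun h => by
        rw [one_mul]
        exact nrm_le (Rp_l2 h)
  have Ja : ∀ h g, (J h).1 g = h g := fun _ _ => rfl
  by_cases h : ∃ g, χ (J (lp.single 2 g 1)) ≠ 0
  · obtain ⟨g, hg⟩ := h
    refine Or.inl ⟨g, fun f => mul_right_cancel₀ hg ?_⟩
    rw [← map_mul, ← smul_eq_mul (f.1 g), ← map_smul]
    congr 1
    refine Subtype.ext (funext fun k => ?_)
    change f.1 k * (J _).1 k = f.1 g * (J _).1 k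
    rw [Ja]
    by_cases c : k = g
    · rw [c]
    · simp [lp.single_apply, c]
  · push Not at h
    refine Or.inr fun f hf => ?_
    let v : lp (fun _ : G => ℂ) 2 := ⟨f.1, mem_lp hf⟩
    have a := ((lp.hasSum_single (by norm_num) v).mapL J).map χ (map_continuous χ)
    have b : ∀ g, χ (J (lp.single 2 g (v g))) = 0 := fun g => by
      have : (lp.single 2 g (v g) : lp (fun _ : G => ℂ) 2) = v g • lp.single 2 g 1 := by
        rw [← lp.single_smul]; simp
      rw [this, map_smul, map_smul, h, smul_zero]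
    have c : (χ ∘ fun g => J (lp.single 2 g (v g))) = fun _ => 0 := funext b
    rw [c] at a
    exact a.unique hasSum_zero

theorem Rp_ind (H : Subgroup G) (σ : URep H) (ξ η : σ.V) :
    Rp (Function.extend Subtype.val (coef σ ξ η) 0) (‖ξ‖ * ‖η‖) := by
  classical
  have hβ : ∀ (g : G) (y : G ⧸ H), y.out⁻¹ * (g * (g⁻¹ • y).out) ∈ H := fun g y => by
    rw [← QuotientGroup.eq, QuotientGroup.out_eq', ← smul_eq_mul, ← MulAction.Quotient.smul_mk,
      QuotientGroup.out_eq', smul_inv_smul]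
  let β : G → G ⧸ H → H := fun g y => ⟨_, hβ g y⟩
  let l : G → lp (fun _ : G ⧸ H => σ.V) 2 →ₗ[ℂ] lp (fun _ : G ⧸ H => σ.V) 2 := fun g =>
    { toFun := fun v => ⟨fun y => σ.π (β g y) (v (g⁻¹ • y)), mem_lp (by
        simp only [LinearIsometryEquiv.norm_map]
        exact (MulAction.toPerm g⁻¹).summable_iff.2 (lp_norm_sq v).summable)⟩
      map_add' := fun v w => by ext i; simp
      map_smul' := fun a v => by ext i; simp }
  have la : ∀ g v y, l g v y = σ.π (β g y) (v (g⁻¹ • y)) := fun _ _ _ => rfl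
  let o : G ⧸ H := ((1 : G) : G ⧸ H)
  have ho : o.out ∈ H := by
    have := QuotientGroup.eq.1 (QuotientGroup.out_eq' o).symm
    simpa using this
  let k : H := ⟨o.out, ho⟩
  refine ⟨mkRep _ l (fun v => ?_) (fun g j v => ?_) (fun g v => ?_),
    lp.single 2 o (σ.π k⁻¹ ξ), lp.single 2 o (σ.π k⁻¹ η), ?_, ?_⟩
  · ext y
    have : β 1 y = 1 := Subtype.ext (by simp [β])
    rw [la, this]; simp
  · ext y
    have : β (g * j) y = β g y * β j (g⁻¹ • y) := Subtype.ext (by simp [β, mul_smul, mul_assoc])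
    rw [la, la, la, this, π_mul, mul_inv_rev, mul_smul]
  · have a := lp_norm_sq (l g v)
    simp only [la, LinearIsometryEquiv.norm_map] at a
    have b := (MulAction.toPerm g⁻¹).hasSum_iff.2 (lp_norm_sq v)
    exact (pow_left_inj₀ (norm_nonneg _) (norm_nonneg _) two_ne_zero).1 (a.unique b)
  · funext g
    have := lp.inner_single_left (𝕜 := ℂ) o (σ.π k⁻¹ η) (l g (lp.single 2 o (σ.π k⁻¹ ξ)))
    refine Eq.trans ?_ this.symm
    rw [la]
    by_cases c : g ∈ H
    · have e : g⁻¹ • o = o := by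
        simp only [o, MulAction.Quotient.smul_mk]
        rw [QuotientGroup.eq]; simpa using c
      have e2 : β g o = k⁻¹ * ⟨g, c⟩ * k := Subtype.ext (by simp [β, e, k, mul_assoc])
      rw [e, lp.single_apply_self, e2, ← π_mul, mul_inv_cancel_right, π_mul,
        LinearIsometryEquiv.inner_map_map]
      exact Subtype.val_injective.extend_apply _ _ (⟨g, c⟩ : H)
    · have e : g⁻¹ • o ≠ o := by
        simp only [o, MulAction.Quotient.smul_mk]
        rw [Ne, QuotientGroup.eq]; simpa using c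
      rw [lp.single_apply_ne _ _ _ e, map_zero, inner_zero_right,
        Function.extend_apply' _ _ _ (by rintro ⟨x, rfl⟩; exact c x.2)]
      rfl
  · change ‖(lp.single 2 o (σ.π k⁻¹ ξ) : lp (fun _ : G ⧸ H => σ.V) 2)‖ *
      ‖(lp.single 2 o (σ.π k⁻¹ η) : lp (fun _ : G ⧸ H => σ.V) 2)‖ ≤ _
    rw [lp.norm_single (by norm_num), lp.norm_single (by norm_num)]
    simp

noncomputable def ex (s : G) (c : ℤ → ℂ) : G → ℂ := Function.extend (fun n : ℤ => s ^ n) c 0

theorem Rp_ex {s : G} (hs : Function.Injective fun n : ℤ => s ^ n) {c : ℤ → ℂ} {C : ℝ}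
    (h : Rp (G := Multiplicative ℤ) (fun n => c n.toAdd) C) : Rp (ex s c) C := by
  obtain ⟨ρ, ξ, η, e, b⟩ := h
  have hi : Function.Injective (zpowersHom G s) := fun x y hxy => hs hxy
  let i := MonoidHom.ofInjective hi
  let σ : URep (zpowersHom G s).range := { ρ with π := ρ.π.comp i.symm.toMonoidHom }
  have := (Rp_ind _ σ ξ η).mono b
  convert this using 1
  funext g
  by_cases c : ∃ n : ℤ, s ^ n = g
  · obtain ⟨n, rfl⟩ := c
    have a := Subtype.val_injective.extend_apply (coef σ ξ η) 0 (i (Multiplicative.ofAdd n))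
    refine (hs.extend_apply _ _ n).trans (Eq.trans ?_ a.symm)
    refine (congrFun e (Multiplicative.ofAdd n)).trans ?_
    change _ = ⟪η, ρ.π (i.symm (i _)) ξ⟫_ℂ
    rw [MulEquiv.symm_apply_apply]
    rfl
  · rw [ex, Function.extend_apply' _ _ _ c, Function.extend_apply']
    rintro ⟨⟨_, n, rfl⟩, rfl⟩
    exact c ⟨n.toAdd, rfl⟩

end Pool.Agent.H.MP_9fb650_an
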