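import Mathlib

set_option autoImplicit false
set_option maxHeartbeats 400000

namespace Pool.Agent.H.MP_9fb650_an

open Filter Topology Metric Finset

abbrev TT := AddCircle (1 : ℝ)

theorem norm_four (n : ℤ) (x : TT) : ‖fourier n x‖ = 1 := by
  rw [fourier_apply, Circle.norm_coe]

theorem four_add (n : ℤ) (x y : TT) : fourier n (x + y) = fourier n x * fourier n y := by
  simp [fourier_apply, smul_add, AddCircle.toCircle_add]

theorem four_smul (n k : ℤ) (x : TT) : fourier n (k • x) = fourier (n * k) x := by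
  simp [fourier_apply, mul_smul]

theorem four_zpow (n : ℤ) (x : TT) : (fourier 1 x : ℂ) ^ n = fourier n x := by
  rw [fourier_one, fourier_apply, AddCircle.toCircle_zsmul]
  simp

theorem four_inj {x y : TT} (h : (fourier 1 x : ℂ) = fourier 1 y) : x = y := by
  rw [fourier_one, fourier_one] at h
  exact AddCircle.injective_toCircle one_ne_zero (Circle.coe_injective h)

theorem exists_four {z : ℂ} (hz : ‖z‖ = 1) : ∃ x : TT, fourier 1 x = z := by
  refine ⟨((z.arg / (2 * Real.pi) : ℝ) : TT), ?_⟩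
  have := Complex.norm_mul_exp_arg_mul_I z
  rw [hz, Complex.ofReal_one, one_mul] at this
  rw [fourier_coe_apply]
  refine Eq.trans ?_ this
  congr 1
  have : (Real.pi : ℂ) ≠ 0 := by exact_mod_cast Real.pi_ne_zero
  push_cast
  field_simp

theorem mF {ι : Type} [Fintype ι] (m : ι → ℤ) (y : ι → TT) :
    UnitAddTorus.mFourier m y = fourier 1 (∑ i, m i • y i) := by
  classical
  change ∏ i, fourier (m i) (y i) = _
  induction (univ : Finset ι) using Finset.induction_on with
  | empty => simp
  | insert a s ha ih => rw [prod_insert ha, sum_insert ha, four_add, ih, four_smul, one_mul]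

theorem kron {ι : Type} [Fintype ι] (t : ι → TT) (Γ : TT →+ TT) :
    (fun i => Γ (t i)) ∈ closure (Set.range fun n : ℤ => n • t) := by
  set x : ι → TT := fun i => Γ (t i)
  set S := Set.range fun n : ℤ => n • t
  let A : ℕ → C(ι → TT, ℂ) →L[ℂ] ℂ := fun N => ((N + 1 : ℕ) : ℂ)⁻¹ • ∑ n ∈ range (N + 1),
    (ContinuousMap.evalCLM ℂ (x + (n : ℤ) • t) - ContinuousMap.evalCLM ℂ ((n : ℤ) • t))
  have Aa : ∀ N φ, A N φ = ((N + 1 : ℕ) : ℂ)⁻¹ * ∑ n ∈ range (N + 1),
      (φ (x + (n : ℤ) • t) - φ ((n : ℤ) • t)) := fun N φ => by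
    simp [A, _root_.sum_apply]
  have hA : ∀ N, ‖A N‖ ≤ 2 := fun N => ContinuousLinearMap.opNorm_le_bound _ zero_le_two fun φ => by
    rw [Aa, norm_mul, norm_inv, Complex.norm_natCast, inv_mul_le_iff₀ (by positivity)]
    refine (norm_sum_le_of_le (n := fun _ => 2 * ‖φ‖) _ fun n _ => ?_).trans (by simp)
    have a := ContinuousMap.norm_coe_le_norm φ (x + (n : ℤ) • t)
    have b := ContinuousMap.norm_coe_le_norm φ ((n : ℤ) • t)
    exact (norm_sub_le _ _).trans (by linarith)
  have he : Equicontinuous fun n => (A n : C(ι → TT, ℂ) → ℂ) :=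
    (LipschitzWith.uniformEquicontinuous _ 2 fun n =>
      (A n).lipschitz.weaken (by exact_mod_cast hA n)).equicontinuous
  have hcl := he.isClosed_setOfPred_tendsto (l := atTop) (f := fun _ => (0 : ℂ)) continuous_const
  have hd := Submodule.dense_iff_topologicalClosure_eq_top.mpr
    (UnitAddTorus.span_mFourier_closure_eq_top (d := ι))
  have all : ∀ φ, Tendsto (fun N => A N φ) atTop (𝓝 0) := fun φ => by
    refine hcl.closure_subset_iff.2 ?_ (hd φ)
    intro g hg
    induction hg using Submodule.span_induction with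
    | zero => simp
    | add x y _ _ hx hy => simpa using Tendsto.add hx hy
    | smul c x _ hx => simpa using Tendsto.const_smul hx c
    | mem _ hx =>
      obtain ⟨m, rfl⟩ := hx
      set a := ∑ i, m i • t i with ha
      have e : ∀ N, A N (UnitAddTorus.mFourier m) = ((N + 1 : ℕ) : ℂ)⁻¹ *
          ((fourier 1 (Γ a) - 1) * ∑ n ∈ range (N + 1), (fourier 1 a : ℂ) ^ n) := fun N => by
        rw [Aa]
        congr 1
        rw [mul_sum]
        refine sum_congr rfl fun n _ => ?_
        have e1 : ∑ i, m i • ((n : ℤ) • t) i = (n : ℤ) • a := by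
          rw [ha, smul_sum]
          exact sum_congr rfl fun i _ => by rw [Pi.smul_apply, smul_comm]
        have e2 : ∑ i, m i • (x + (n : ℤ) • t) i = Γ a + (n : ℤ) • a := by
          rw [← e1, ha, map_sum, ← sum_add_distrib]
          exact sum_congr rfl fun i _ => by rw [Pi.add_apply, smul_add, map_zsmul]
        rw [mF, mF, e1, e2, four_add, four_smul, one_mul, ← four_zpow n, zpow_natCast]
        ring
      change Tendsto (fun N => A N (UnitAddTorus.mFourier m)) atTop (𝓝 0)
      simp only [e]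
      by_cases h : (fourier 1 a : ℂ) = 1
      · have : a = 0 := four_inj (by rw [h]; simp)
        simp [this]
      · refine squeeze_zero_norm (a := fun N : ℕ => (1 / ((N : ℝ) + 1)) *
          (2 * (2 / ‖(fourier 1 a : ℂ) - 1‖))) (fun N => ?_) ?_
        · rw [norm_mul, norm_inv, Complex.norm_natCast, norm_mul, geom_sum_eq h, norm_div]
          push_cast
          rw [one_div]
          gcongr
          · exact (norm_sub_le _ _).trans (by rw [norm_four]; norm_num)
          · exact (norm_sub_le _ _).trans (by rw [norm_pow, norm_four]; norm_num)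
        · simpa using tendsto_one_div_add_atTop_nhds_zero_nat.mul_const
            (2 * (2 / ‖(fourier 1 a : ℂ) - 1‖))
  have h1 := all ⟨fun y => (infDist y S : ℂ), by fun_prop⟩
  have h2 : ∀ N, A N ⟨fun y => (infDist y S : ℂ), by fun_prop⟩ = infDist x S := fun N => by
    rw [Aa, sum_congr rfl (g := fun _ => (infDist x S : ℂ))]
    · have : ((N + 1 : ℕ) : ℂ) ≠ 0 := by exact_mod_cast N.succ_ne_zero
      rw [sum_const, card_range, nsmul_eq_mul, inv_mul_cancel_left₀ this]
    · intro n _
      have e : (fun y => y + (n : ℤ) • t) '' S = S := by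
        ext y
        constructor
        · rintro ⟨_, ⟨k, rfl⟩, rfl⟩
          exact ⟨k + n, add_smul _ _ _⟩
        · rintro ⟨k, rfl⟩
          exact ⟨_, ⟨k - n, rfl⟩, by simp [sub_smul]⟩
      have := infDist_image (isometry_add_right ((n : ℤ) • t)) (x := x) (t := S)
      rw [e] at this
      simp only [ContinuousMap.coe_mk]
      rw [this, infDist_zero_of_mem (show (n : ℤ) • t ∈ S from ⟨n, rfl⟩)]
      simp
  simp only [h2] at h1
  rw [mem_closure_iff_infDist_zero (Set.range_nonempty _)]
  exact_mod_cast tendsto_nhds_unique tendsto_const_nhds h1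

theorem bohr {ι : Type} [Fintype ι] (t : ι → TT) {ε : ℝ} (hε : 0 < ε) :
    ∃ M : ℕ, 0 < M ∧ ∀ L : ℕ, ∃ S ⊆ range (M * L), L ≤ S.card ∧ ∀ n ∈ S, dist ((n : ℤ) • t) 0 < ε := by
  classical
  obtain ⟨T, -, hT, hc⟩ := finite_cover_balls_of_compact (isCompact_univ (X := ι → TT)) (half_pos hε)
  have h : ∀ y : ι → TT, ∃ c ∈ hT.toFinset, dist y c < ε / 2 := fun y => by
    simpa using hc (Set.mem_univ y)
  choose c h1 h2 using h
  have hne : hT.toFinset.Nonempty := ⟨_, h1 0⟩
  refine ⟨hT.toFinset.card, hne.card_pos, fun L => ?_⟩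
  obtain ⟨y, -, hy⟩ := exists_le_card_fiber_of_mul_le_card_of_maps_to
    (s := range (hT.toFinset.card * L)) (f := fun n : ℕ => c ((n : ℤ) • t)) (n := L)
    (fun n _ => h1 _) hne (by simp)
  set F := (range (hT.toFinset.card * L)).filter fun n : ℕ => c ((n : ℤ) • t) = y
  rcases F.eq_empty_or_nonempty with h | h
  · rw [h] at hy
    exact ⟨∅, empty_subset _, hy, by simp⟩
  have m0 := F.min'_mem h
  refine ⟨F.image (· - F.min' h), fun n hn => ?_, ?_, fun n hn => ?_⟩
  · obtain ⟨k, hk, rfl⟩ := mem_image.1 hn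
    have := mem_range.1 (mem_filter.1 hk).1
    exact mem_range.2 (by omega)
  · rw [card_image_of_injOn]
    · exact hy
    · intro a ha b hb hab
      have := F.min'_le a ha
      have := F.min'_le b hb
      simp only at hab
      omega
  · obtain ⟨k, hk, rfl⟩ := mem_image.1 hn
    rw [Nat.cast_sub (F.min'_le k hk), sub_smul, dist_zero_right, ← dist_eq_norm]
    have a := h2 ((k : ℤ) • t)
    have b := h2 ((F.min' h : ℤ) • t)
    rw [(mem_filter.1 hk).2] at a
    rw [(mem_filter.1 m0).2] at b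
    linarith [dist_triangle_right ((k : ℤ) • t) ((F.min' h : ℤ) • t) y]

def Wie (c : ℤ → ℝ) : Prop :=
  (∀ n, 0 ≤ c n) ∧ ∀ δ > 0, ∃ M : ℕ, 0 < M ∧ ∀ a : ℤ, ∑ n ∈ range M, c (a + n) ≤ M * δ

theorem Wie.lin {c : ℤ → ℝ} (h : Wie c) {e : ℤ} (he : e ≠ 0) (m : ℤ) {δ : ℝ} (hδ : 0 < δ) :
    ∀ᶠ N : ℕ in atTop, ∑ n ∈ range N, c (e * n + m) ≤ N * δ := by
  obtain ⟨M, M0, hM⟩ := h.2 (δ / (2 * e.natAbs + 4)) (by positivity)
  have blk : ∀ (k : ℕ) (a : ℤ), ∑ n ∈ range (k * M), c (a + n) ≤ k * M * (δ / (2 * e.natAbs + 4)) := by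
    intro k a
    induction k with
    | zero => simp
    | succ k ih =>
      rw [Nat.succ_mul, sum_range_add]
      have := hM (a + (k * M : ℕ))
      simp only [Nat.cast_add, ← add_assoc] at this ⊢
      push_cast at this ⊢
      linarith
  filter_upwards [eventually_ge_atTop m.natAbs, eventually_ge_atTop M] with N h1 h2
  set B : ℕ := e.natAbs * N + m.natAbs with hB
  set k := (2 * B + 1) / M + 1 with hk
  have k1 : 2 * B + 1 ≤ k * M := by
    have := Nat.lt_div_mul_add (a := 2 * B + 1) M0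
    rw [hk, add_mul, one_mul]; omega
  have k2 : k * M ≤ (2 * e.natAbs + 4) * N := by
    have := Nat.div_mul_le_self (2 * B + 1) M
    rw [hk, add_mul, one_mul]
    have : 1 ≤ N := M0.trans_le h2
    nlinarith
  have bd : ∀ n ∈ range N, |e * n + m| ≤ B := fun n hn => by
    have := (mem_range.1 hn).le
    refine (abs_add_le _ _).trans ?_
    rw [abs_mul, hB]
    push_cast
    rw [Nat.abs_cast]
    gcongr
  calc ∑ n ∈ range N, c (e * n + m) = ∑ l ∈ (range N).image (fun n : ℕ => (e * n + m + B).toNat),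
        c (-B + l) := by
        rw [sum_image]
        · refine sum_congr rfl fun n hn => ?_
          rw [Int.toNat_of_nonneg (by linarith [(abs_le.1 (bd n hn)).1])]
          congr 1; ring
        · intro a ha b hb hab
          have h3 := (abs_le.1 (bd a ha)).1
          have h4 := (abs_le.1 (bd b hb)).1
          have : e * a = e * b := by
            simp only at hab
            omega
          exact_mod_cast mul_left_cancel₀ he this
    _ ≤ ∑ l ∈ range (k * M), c (-B + l) := by
        refine sum_le_sum_of_subset_of_nonneg (fun l hl => ?_) fun _ _ _ => h.1 _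
        obtain ⟨n, hn, rfl⟩ := mem_image.1 hl
        have := abs_le.1 (bd n hn)
        exact mem_range.2 (by omega)
    _ ≤ _ := by
        refine (blk k _).trans ?_
        have : (k : ℝ) * M ≤ (2 * e.natAbs + 4) * N := by exact_mod_cast k2
        refine (mul_le_mul_of_nonneg_right this (by positivity)).trans_eq ?_
        field_simp

def Dens (P : ℕ → Prop) : Prop :=
  ∃ M : ℕ, 0 < M ∧ ∀ L : ℕ, ∃ S ⊆ range (M * L), L ≤ S.card ∧ ∀ n ∈ S, P n

theorem pick {c : ℤ → ℝ} (h : Wie c) {P : ℕ → Prop} (hP : Dens P) (F : Finset (ℤ × ℤ))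
    (hF : ∀ q ∈ F, q.1 ≠ 0) {δ : ℝ} (hδ : 0 < δ) (N0 : ℕ) :
    ∃ n, N0 ≤ n ∧ P n ∧ ∑ q ∈ F, c (q.1 * n + q.2) ≤ δ := by
  obtain ⟨M, M0, hM⟩ := hP
  have ev := (eventually_all_finset F).2 fun q hq =>
    h.lin (hF q hq) q.2 (δ := δ / (2 * M * (F.card + 1))) (by positivity)
  obtain ⟨L, h1, h2⟩ := (((tendsto_id.const_mul_atTop' M0).eventually ev).and
    (eventually_gt_atTop (2 * N0))).exists
  obtain ⟨S, hS, hc, hp⟩ := hM L
  by_contra hn
  push Not at hn
  have a : ∑ n ∈ S \ range N0, δ ≤ ∑ n ∈ range (M * L), ∑ q ∈ F, c (q.1 * n + q.2) := by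
    refine (sum_le_sum fun n hn' => (hn n ?_ (hp n (mem_sdiff.1 hn').1)).le).trans
      (sum_le_sum_of_subset_of_nonneg (sdiff_subset.trans hS)
        fun _ _ _ => sum_nonneg fun _ _ => h.1 _)
    simpa using (mem_sdiff.1 hn').2
  rw [sum_comm] at a
  have b := a.trans (sum_le_card_nsmul _ _ _ h1)
  have c1 : L ≤ (S \ range N0).card + N0 := by
    have := le_card_sdiff (range N0) S
    rw [card_range] at this
    omega
  have c2 : (L : ℝ) ≤ (S \ range N0).card + N0 := by exact_mod_cast c1
  have c3 : 2 * (N0 : ℝ) < L := by exact_mod_cast h2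
  rw [sum_const, nsmul_eq_mul, nsmul_eq_mul] at b
  simp only [id] at b
  have c4 : (F.card : ℝ) * (((M * L : ℕ) : ℝ) * (δ / (2 * M * (F.card + 1)))) ≤ L / 2 * δ := by
    have : (0 : ℝ) < M := by exact_mod_cast M0
    have e : (F.card : ℝ) * (((M * L : ℕ) : ℝ) * (δ / (2 * M * (F.card + 1)))) =
        L / 2 * δ * (F.card / (F.card + 1)) := by
      push_cast; field_simp
    rw [e]
    exact mul_le_of_le_one_right (by positivity) (div_le_one_of_le₀ (by linarith) (by positivity))
  nlinarith

end Pool.Agent.H.MP_9fb650_an
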