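import Pool.Agent.H.MP_9fb650_an.B

set_option autoImplicit false
set_option maxHeartbeats 400000

namespace Pool.Agent.H.MP_9fb650_an

open Filter Topology Metric Finset MeasureTheory
open scoped ComplexOrder ComplexConjugate

noncomputable abbrev mu : Measure TT := AddCircle.haarAddCircle

theorem cint {f : TT → ℂ} (hf : Continuous f) (μ : Measure TT) [IsFiniteMeasure μ] :
    Integrable f μ := hf.integrable_of_hasCompactSupport (HasCompactSupport.of_compactSpace f)

noncomputable def co (m : ℤ) : C(TT, ℂ) →ₗ[ℂ] ℂ where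
  toFun F := ∫ x, fourier m x * F x ∂mu
  map_add' F G := by
    simp only [ContinuousMap.add_apply, mul_add]
    exact integral_add (cint (by fun_prop) _) (cint (by fun_prop) _)
  map_smul' c F := by
    simp only [ContinuousMap.smul_apply, smul_eq_mul, RingHom.id_apply, mul_left_comm _ c]
    exact integral_const_mul _ _

theorem co_apply (m : ℤ) (F : C(TT, ℂ)) : co m F = ∫ x, fourier m x * F x ∂mu := rfl

theorem co_four (m j : ℤ) : co m (fourier j) = if m + j = 0 then 1 else 0 := by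
  simp only [co_apply, ← fourier_add]
  split_ifs with h
  · simp [h]
  · exact integral_eq_zero_of_add_right_eq_neg (μ := mu) (fourier_add_half_inv_index h one_pos)

noncomputable def dil (n : ℤ) (F : C(TT, ℂ)) : C(TT, ℂ) := F.comp ⟨fun x => n • x, by fun_prop⟩

theorem co_mul {d : ℕ} {Φ : C(TT, ℂ)}
    (h : Φ ∈ Submodule.span ℂ ((fun j : ℤ => (fourier j : C(TT, ℂ))) '' Set.Icc (-(d : ℤ)) d))
    (P : C(TT, ℂ)) (n m : ℤ) :
    co m (P * dil n Φ) = ∑ e ∈ Icc (-(d : ℤ)) d, co (-e) Φ * co (m + e * n) P := by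
  induction h using Submodule.span_induction with
  | mem _ hx =>
    obtain ⟨j, hj, rfl⟩ := hx
    simp only [co_four]
    rw [sum_eq_single j (fun b _ hb => by rw [if_neg (by omega), zero_mul])
      (fun h => absurd (mem_Icc.2 hj) h), if_pos (by omega), one_mul, co_apply, co_apply]
    congr 1
    ext x
    simp only [dil, ContinuousMap.mul_apply, ContinuousMap.comp_apply, ContinuousMap.coe_mk,
      four_smul, fourier_add]
    ring
  | zero =>
    have : dil n 0 = 0 := rfl
    simp [this]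
  | add x y _ _ hx hy =>
    have : dil n (x + y) = dil n x + dil n y := rfl
    rw [this, mul_add, map_add, hx, hy, ← sum_add_distrib]
    simp [add_mul]
  | smul c x _ hx =>
    have : dil n (c • x) = c • dil n x := rfl
    rw [this, mul_smul_comm, map_smul, hx, smul_eq_mul, mul_sum]
    simp [mul_assoc]

theorem kernel {z : ℂ} (hz : ‖z‖ ≤ 1) {ε : ℝ} (hε : 0 < ε) : ∃ (d : ℕ) (Φ : C(TT, ℂ)), 0 < d ∧
    Φ ∈ Submodule.span ℂ ((fun j : ℤ => (fourier j : C(TT, ℂ))) '' Set.Icc (-(d : ℤ)) d) ∧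
    (∀ x, 0 ≤ Φ x) ∧ co 0 Φ = 1 ∧ ‖co 1 Φ - z‖ ≤ ε := by
  obtain ⟨k, hk⟩ := exists_nat_one_div_lt hε
  set w := Complex.exp (z.arg * Complex.I) with hw
  have w1 : conj w * w = 1 := by
    rw [Complex.conj_mul', hw, Complex.norm_exp_ofReal_mul_I]; simp
  have hzw : (‖z‖ : ℂ) * w = z := Complex.norm_mul_exp_arg_mul_I z
  have k0 : ((k : ℂ) + 1) ≠ 0 := by exact_mod_cast k.succ_ne_zero
  let Q : C(TT, ℂ) := ∑ i ∈ range (k + 1), ∑ l ∈ range (k + 1),
    (conj w ^ i * w ^ l) • fourier ((i : ℤ) - l)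
  have hQ : ∀ m, co m Q = ∑ i ∈ range (k + 1), ∑ l ∈ range (k + 1),
      if m + (i - l) = 0 then conj w ^ i * w ^ l else 0 := fun m => by
    simp only [Q, map_sum, map_smul, co_four, smul_eq_mul, mul_ite, mul_one, mul_zero]
  refine ⟨k + 1, ((1 - ‖z‖ : ℝ) : ℂ) • fourier 0 + ((‖z‖ / (k + 1) : ℝ) : ℂ) • Q, k.succ_pos,
    ?_, fun x => ?_, ?_, ?_⟩
  · refine add_mem (Submodule.smul_mem _ _ (Submodule.subset_span ⟨0, ⟨by omega, by omega⟩, rfl⟩))
      (Submodule.smul_mem _ _ (sum_mem fun i hi => sum_mem fun l hl => Submodule.smul_mem _ _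
        (Submodule.subset_span ⟨_, ?_, rfl⟩)))
    rw [mem_range] at hi hl
    constructor <;> omega
  · have e : Q x = (∑ i ∈ range (k + 1), conj w ^ i * fourier i x) *
        conj (∑ i ∈ range (k + 1), conj w ^ i * fourier i x) := by
      rw [map_sum, sum_mul_sum]
      simp only [Q, ContinuousMap.coe_sum, Finset.sum_apply, ContinuousMap.smul_apply, smul_eq_mul]
      refine sum_congr rfl fun i _ => sum_congr rfl fun l _ => ?_
      rw [sub_eq_add_neg, fourier_add, fourier_neg, map_mul, map_pow, Complex.conj_conj]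
      ring
    simp only [ContinuousMap.add_apply, ContinuousMap.smul_apply, smul_eq_mul, fourier_zero,
      mul_one]
    rw [e, Complex.mul_conj]
    have : (0 : ℝ) ≤ 1 - ‖z‖ + ‖z‖ / (k + 1) *
        Complex.normSq (∑ i ∈ range (k + 1), conj w ^ i * fourier i x) :=
      add_nonneg (by linarith) (mul_nonneg (by positivity) (Complex.normSq_nonneg _))
    exact_mod_cast this
  · have : co 0 Q = k + 1 := by
      rw [hQ, sum_congr rfl (g := fun _ => 1)]
      · simp
      · intro i hi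
        rw [sum_eq_single i (fun b _ hb => if_neg (by omega)) (fun h => absurd hi h),
          if_pos (by omega), ← mul_pow, w1, one_pow]
    rw [map_add, map_smul, map_smul, this, co_four]
    push_cast
    simp only [smul_eq_mul]
    field_simp
    ring
  · have : co 1 Q = k * w := by
      rw [hQ, sum_range_succ, sum_congr rfl (g := fun _ => w), sum_eq_zero (s := range (k + 1))]
      · simp
      · intro l hl
        rw [mem_range] at hl
        exact if_neg (by omega)
      · intro i hi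
        rw [mem_range] at hi
        rw [sum_eq_single (i + 1) (fun b _ hb => if_neg (by omega))
          (fun h => absurd (mem_range.2 (by omega)) h), if_pos (by omega), pow_succ, ← mul_assoc,
          ← mul_pow, w1, one_pow, one_mul]
    rw [map_add, map_smul, map_smul, this, co_four, if_neg (by norm_num)]
    have e : ((1 - ‖z‖ : ℝ) : ℂ) • (0 : ℂ) + ((‖z‖ / (k + 1) : ℝ) : ℂ) • ((k : ℂ) * w) - z =
        -(z / ((k + 1 : ℕ) : ℂ)) := by
      push_cast
      simp only [smul_eq_mul]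
      field_simp
      linear_combination k * hzw
    rw [e, norm_neg, norm_div, Complex.norm_natCast]
    push_cast
    exact (div_le_div_of_nonneg_right hz (by positivity)).trans hk.le

theorem meas {P : C(TT, ℂ)} (h0 : ∀ x, 0 ≤ P x) (h1 : co 0 P = 1) :
    ∃ ρ : ProbabilityMeasure TT, ∀ m, ∫ x, fourier m x ∂ρ.1 = co m P := by
  have hm : Measurable fun x => (P x).re.toNNReal :=
    (Complex.continuous_re.comp P.continuous).measurable.real_toNNReal
  have e : ∀ m, ∫ x, fourier m x ∂(mu.withDensity fun x => (P x).re.toNNReal) = co m P := fun m => by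
    rw [integral_withDensity_eq_integral_smul hm, co_apply]
    congr 1
    ext x
    have := Complex.nonneg_iff.1 (h0 x)
    rw [NNReal.smul_def, Real.coe_toNNReal _ this.1, Complex.real_smul, mul_comm]
    congr 1
    exact Complex.ext rfl (by simpa using this.2)
  refine ⟨⟨_, ⟨?_⟩⟩, e⟩
  have := e 0
  simp only [fourier_zero, integral_const, h1, Complex.real_smul, mul_one] at this
  exact (ENNReal.toReal_eq_one_iff _).1 (by exact_mod_cast this)

theorem norm_int_le (ρ : Measure TT) [IsProbabilityMeasure ρ] (m : ℤ) :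
    ‖∫ x, fourier m x ∂ρ‖ ≤ 1 := by
  have := norm_integral_le_of_norm_le_const (μ := ρ) (f := fun x => fourier m x) (C := 1)
    (.of_forall fun x => (norm_four m x).le)
  simpa using this

structure St where
  P : C(TT, ℂ)
  D : ℕ
  pos : ∀ x, 0 ≤ P x
  one : co 0 P = 1
  supp : ∀ m, (D : ℤ) < |m| → co m P = 0

theorem St.le (s : St) (m : ℤ) : ‖co m s.P‖ ≤ 1 := by
  obtain ⟨ρ, h⟩ := meas s.pos s.one
  have := ρ.2
  rw [← h]
  exact norm_int_le _ m

noncomputable def St.A (s : St) (c : ℤ → ℝ) : ℝ := ∑ m ∈ Icc (-(s.D : ℤ)) s.D, ‖co m s.P‖ ^ 2 * c m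

theorem step {c : ℤ → ℝ} (hc : Wie c) {Pd : ℕ → Prop} (hP : Dens Pd) (j : ℤ) {z : ℂ} (hz : ‖z‖ ≤ 1)
    {ε δ : ℝ} (hε : 0 < ε) (hδ : 0 < δ) (s : St) : ∃ (s' : St) (n : ℕ), Pd n ∧ s.D < s'.D ∧
      |j + n| ≤ s'.D ∧ (∀ m : ℤ, |m| ≤ s.D → co m s'.P = co m s.P) ∧ ‖co (j + n) s'.P - z‖ ≤ ε ∧
        c (j + n) ≤ δ ∧ s'.A c ≤ s.A c + δ := by
  obtain ⟨d, Φ, d0, hΦ, p0, p1, p2⟩ := kernel hz hε
  let F := ((Icc (-(d : ℤ)) d).erase 0 ×ˢ Icc (-(s.D : ℤ)) s.D).image
    fun q => (q.1, q.1 * j + q.2)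
  obtain ⟨n, n0, hn, hs⟩ := pick hc hP F (fun q hq => by
    obtain ⟨r, hr, rfl⟩ := mem_image.1 hq
    exact (mem_erase.1 (mem_product.1 hr).1).1) hδ (2 * s.D + 1 + j.natAbs)
  obtain ⟨N, hN⟩ : ∃ N : ℕ, j + n = N := Int.eq_ofNat_of_zero_le (by omega)
  have N0 : 2 * s.D < N := by omega
  have far : ∀ e : ℤ, e ≠ 0 → (N : ℤ) ≤ |e * N| := fun e he => by
    rw [abs_mul, Nat.abs_cast]
    exact le_mul_of_one_le_left (by positivity) (Int.one_le_abs he)
  have a1 : ∀ m : ℤ, |m| ≤ s.D → co m (s.P * dil N Φ) = co m s.P := fun m hm => by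
    rw [co_mul hΦ, sum_eq_single 0 (fun e _ he => ?_) (fun h => absurd (by simp) h)]
    · simp [p1]
    · rw [s.supp, mul_zero]
      have := far e he
      have := abs_add_le (m + e * N) (-m)
      rw [abs_neg, show m + e * N + -m = e * N by ring] at this
      omega
  have a2 : ∀ m, co m (s.P * dil N Φ) ≠ 0 → ∃ e ∈ Icc (-(d : ℤ)) d, |m + e * N| ≤ s.D := by
    intro m hm
    rw [co_mul hΦ] at hm
    obtain ⟨e, he, h⟩ := exists_ne_zero_of_sum_ne_zero hm
    exact ⟨e, he, not_lt.1 fun h' => h (by rw [s.supp _ h', mul_zero])⟩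
  have dN : N ≤ d * N := Nat.le_mul_of_pos_left _ d0
  let s' : St := ⟨s.P * dil N Φ, s.D + d * N, fun x => mul_nonneg (s.pos x) (p0 _),
    (a1 0 (by simp)).trans s.one, fun m hm => by
      by_contra h
      obtain ⟨e, he, h'⟩ := a2 m h
      have := abs_add_le (m + e * N) (-(e * N))
      rw [abs_neg, add_neg_cancel_right, abs_mul, Nat.abs_cast] at this
      have h3 : |e| * N ≤ d * N :=
        mul_le_mul_of_nonneg_right (abs_le.2 (mem_Icc.1 he)) (by positivity)
      push_cast at hm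
      omega⟩
  refine ⟨s', n, hn, by change s.D < s.D + d * N; omega, ?_, a1, ?_, ?_, ?_⟩
  · rw [hN, Nat.abs_cast]
    exact_mod_cast (show N ≤ s.D + d * N by omega)
  · change ‖co (j + n) (s.P * dil N Φ) - z‖ ≤ ε
    rw [hN, co_mul hΦ, sum_eq_single (-1) (fun e _ he => ?_)
      (fun h => absurd (mem_Icc.2 ⟨by omega, by omega⟩) h)]
    · simpa [s.one] using p2
    · rw [s.supp, mul_zero]
      have := far (e + 1) (by omega)
      rw [show (N : ℤ) + e * N = (e + 1) * N by ring]
      omega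
  · refine le_trans ?_ hs
    have := single_le_sum (f := fun q : ℤ × ℤ => c (q.1 * n + q.2)) (fun q _ => hc.1 _)
      (show ((1 : ℤ), 1 * j + 0) ∈ F from mem_image_of_mem _ (a := ((1 : ℤ), (0 : ℤ)))
        (mem_product.2 ⟨mem_erase.2 ⟨one_ne_zero, mem_Icc.2 ⟨by omega, by omega⟩⟩,
          mem_Icc.2 ⟨by omega, by omega⟩⟩))
    simpa [add_comm] using this
  · have sub : Icc (-(s.D : ℤ)) s.D ⊆ Icc (-(s'.D : ℤ)) s'.D :=
      Icc_subset_Icc (by simp only [s']; push_cast; omega) (by simp only [s']; push_cast; omega)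
    rw [St.A, ← sum_sdiff sub, add_comm]
    refine add_le_add (le_of_eq (sum_congr rfl fun m hm => ?_)) ?_
    · rw [a1 m (abs_le.2 (mem_Icc.1 hm))]
    · set T := F.image fun q : ℤ × ℤ => q.1 * n + q.2
      rw [← sum_filter_of_ne (p := (· ∈ T))]
      · refine (sum_le_sum fun m _ => mul_le_of_le_one_left (hc.1 m)
          (pow_le_one₀ (norm_nonneg _) (s'.le m))).trans ((sum_le_sum_of_subset_of_nonneg
            (fun m hm => (mem_filter.1 hm).2) fun _ _ _ => hc.1 _).trans ?_)
        exact (sum_image_le_of_nonneg fun _ _ => hc.1 _).trans hs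
      · intro m hm h
        obtain ⟨e, he, h'⟩ := a2 m (by
          intro h0
          exact h (by change ‖co m (s.P * dil N Φ)‖ ^ 2 * c m = 0; rw [h0]; simp))
        have e0 : e ≠ 0 := by
          rintro rfl
          exact (mem_sdiff.1 hm).2 (mem_Icc.2 (abs_le.1 (by simpa using h')))
        refine mem_image.2 ⟨_, mem_image_of_mem _ (a := (-e, m + e * N)) (mem_product.2
          ⟨mem_erase.2 ⟨by omega, ?_⟩, mem_Icc.2 (abs_le.1 h')⟩), ?_⟩
        · have := mem_Icc.1 he
          exact mem_Icc.2 ⟨by omega, by omega⟩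
        · simp only
          rw [← hN]; ring

theorem core (fd fc : ℤ → ℂ) (hc : Wie fun n => ‖fc n‖ ^ 2)
    (hd : ∀ ε > 0, Dens fun n => ∀ j, ‖fd (j + n) - fd j‖ ≤ ε) :
    ∃ ρ : ProbabilityMeasure TT, Summable (fun m => ‖(∫ x, fourier m x ∂ρ.1) * fc m‖ ^ 2) ∧
      ∀ (j : ℤ) (z : ℂ), ‖z‖ ≤ 1 → ∀ ε > 0, ∃ n : ℤ, ‖∫ x, fourier n x ∂ρ.1 - z‖ ≤ ε ∧
        ‖fd n - fd j‖ ≤ ε ∧ ‖fc n‖ ≤ ε := by
  have : Nonempty (closedBall (0 : ℂ) 1) := ⟨⟨0, by simp⟩⟩
  obtain ⟨τ, hτ⟩ := exists_surjective_nat (ℤ × ℕ × ℕ)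
  let z : ℕ → closedBall (0 : ℂ) 1 := TopologicalSpace.denseSeq _
  have p : ∀ r : ℕ, (0 : ℝ) < 1 / (r + 1) := fun r => by positivity
  choose nx nn h1 h2 h3 h4 h5 h6 h7 using fun (k : ℕ) (s : St) =>
    step hc (hd _ (p (τ k).2.2)) (τ k).1 (mem_closedBall_zero_iff.1 (z (τ k).2.1).2)
      (p (τ k).2.2) (δ := min ((1 / 2) ^ k) ((1 / ((τ k).2.2 + 1)) ^ 2)) (by positivity) s
  let s0 : St := ⟨fourier 0, 0, fun x => by simp, by simp [co_four], fun m hm => by
    rw [co_four, if_neg (by intro h; simp_all)]⟩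
  let s : ℕ → St := fun k => Nat.rec s0 nx k
  have hs : ∀ k, s (k + 1) = nx k (s k) := fun _ => rfl
  have mono : StrictMono fun k => (s k).D := strictMono_nat_of_lt_succ fun k => h2 k (s k)
  have stab : ∀ k l (m : ℤ), k ≤ l → |m| ≤ (s k).D → co m (s l).P = co m (s k).P := by
    intro k l m hkl hm
    induction l, hkl using Nat.le_induction with
    | base => rfl
    | succ l hl ih =>
      rw [hs, h4 l (s l) m (hm.trans (by exact_mod_cast mono.monotone hl)), ih]
  choose r hr using fun k => meas (s k).pos (s k).one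
  obtain ⟨ρ, -, hρ⟩ := isCompact_univ.exists_mapClusterPt (f := atTop) (u := r) (by simp)
  have lim : ∀ k (m : ℤ), |m| ≤ (s k).D → ∫ x, fourier m x ∂ρ.1 = co m (s k).P := by
    intro k m hm
    have c : Continuous fun ν : ProbabilityMeasure TT => ∫ x, fourier m x ∂ν.1 := by
      rw [continuous_iff_continuousAt]
      intro ν
      exact (ProbabilityMeasure.tendsto_iff_forall_integral_rclike_tendsto ℂ).1 tendsto_id
        (BoundedContinuousFunction.mkOfCompact (fourier m))
    refine (isClosed_eq c continuous_const).mem_of_mapClusterPt hρ ?_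
    filter_upwards [eventually_ge_atTop k] with l hl
    exact (hr l m).trans (stab k l m hl hm)
  have hA : ∀ k, (s k).A (fun n => ‖fc n‖ ^ 2) ≤
      s0.A (fun n => ‖fc n‖ ^ 2) + ∑ i ∈ range k, (1 / 2 : ℝ) ^ i := by
    intro k
    induction k with
    | zero => simp [s]
    | succ k ih =>
      have := (h7 k (s k)).trans (add_le_add_right (min_le_left _ _) _)
      rw [sum_range_succ, hs]
      linarith
  refine ⟨ρ, summable_of_sum_le (c := s0.A (fun n => ‖fc n‖ ^ 2) + 2) (fun _ => by positivity)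
    fun u => ?_, fun j w hw ε hε => ?_⟩
  · obtain ⟨k, hk⟩ : ∃ k : ℕ, ∀ m ∈ u, |m| ≤ k := ⟨u.sup Int.natAbs, fun m hm => by
      have := le_sup (f := Int.natAbs) hm
      rw [← Int.natCast_natAbs]
      exact_mod_cast this⟩
    have hk' : ∀ m ∈ u, |m| ≤ (s k).D := fun m hm =>
      (hk m hm).trans (by exact_mod_cast mono.le_apply)
    refine le_trans ?_ ((hA k).trans (add_le_add_right (sum_geometric_two_le k) _))
    refine (le_of_eq (sum_congr rfl fun m hm => ?_)).trans (sum_le_sum_of_subset_of_nonneg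
      (fun m hm => mem_Icc.2 (abs_le.1 (hk' m hm))) fun _ _ _ => by positivity)
    rw [lim k m (hk' m hm), norm_mul, mul_pow]
  · obtain ⟨i, hi⟩ := Metric.denseRange_iff.1 (TopologicalSpace.denseRange_denseSeq
      (closedBall (0 : ℂ) 1)) ⟨w, mem_closedBall_zero_iff.2 hw⟩ _ (half_pos hε)
    obtain ⟨q, hq⟩ := exists_nat_one_div_lt (half_pos hε)
    obtain ⟨k, hk⟩ := hτ (j, i, q)
    have a1 := h1 k (s k)
    have a3 := h3 k (s k)
    have a5 := h5 k (s k)
    have a6 := (h6 k (s k)).trans (min_le_right _ _)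
    simp only [hk] at a1 a3 a5 a6
    refine ⟨j + nn k (s k), ?_, (a1 j).trans (by linarith), ?_⟩
    · rw [lim (k + 1) _ a3, ← dist_eq_norm]
      rw [← dist_eq_norm] at a5
      have : dist w (z i : ℂ) < ε / 2 := hi
      linarith [dist_triangle_right (co (j + nn k (s k)) (s (k + 1)).P) w (z i)]
    · exact ((pow_le_pow_iff_left₀ (norm_nonneg _) (p q).le two_ne_zero).1 a6).trans (by linarith)

end Pool.Agent.H.MP_9fb650_an
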