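import Pool.Agent.H.MP_9fb650_an.A
import Pool.Agent.H.MP_9fb650_an.C
import Pool.Agent.H.MP_cd1425_an.A

set_option autoImplicit false
set_option maxHeartbeats 400000

namespace Pool.Agent.H.MP_9fb650_an

open Filter Topology InnerProductSpace Pool.Agent.H.MP_f0f681_an MeasureTheory Multiplicative
open scoped ENNReal

attribute [-instance] CStarModule.toInner

def Rz (c : ℤ → ℂ) (C : ℝ) : Prop := Rp (G := Multiplicative ℤ) (fun n => c n.toAdd) C

theorem Rz_meas (ρ : Measure TT) [IsProbabilityMeasure ρ] : Rz (fun n => ∫ x, fourier n x ∂ρ) 1 := by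
  have hm : ∀ n : ℤ, MemLp (fun x : TT => fourier n x) ∞ ρ := fun n =>
    memLp_top_of_bound (map_continuous (fourier n)).aestronglyMeasurable 1
      (.of_forall fun x => (norm_four n x).le)
  let l : Multiplicative ℤ → Lp ℂ 2 ρ →ₗ[ℂ] Lp ℂ 2 ρ := fun n =>
    ((ContinuousLinearMap.mul ℂ ℂ).holderL ρ ∞ 2 2 ((hm n.toAdd).toLp _)).toLinearMap
  have la : ∀ n v, l n v =ᵐ[ρ] fun x => fourier n.toAdd x * v x := fun n v => by
    filter_upwards [ContinuousLinearMap.coeFn_holder (r := 2) (ContinuousLinearMap.mul ℂ ℂ)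
      ((hm n.toAdd).toLp _) v, (hm n.toAdd).coeFn_toLp] with x a1 a2
    exact a1.trans (by rw [a2]; rfl)
  refine ⟨mkRep _ l (fun v => Lp.ext ?_) (fun g h v => Lp.ext ?_) (fun g v => ?_),
    Lp.const 2 ρ (1 : ℂ), Lp.const 2 ρ (1 : ℂ), ?_, ?_⟩
  · filter_upwards [la 1 v] with x a
    rw [a]; simp
  · filter_upwards [la (g * h) v, la g (l h v), la h v] with x a b c
    rw [a, b, c, toAdd_mul, fourier_add, mul_assoc]
  · rw [Lp.norm_def, Lp.norm_def]
    congr 1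
    refine eLpNorm_congr_norm_ae ?_
    filter_upwards [la g v] with x a
    rw [a, norm_mul, norm_four, one_mul]
  · funext n
    refine Eq.trans ?_ (L2.inner_def (𝕜 := ℂ) (Lp.const 2 ρ (1 : ℂ)) (l n (Lp.const 2 ρ 1))).symm
    refine integral_congr_ae ?_
    filter_upwards [la n (Lp.const 2 ρ 1), Lp.coeFn_const 2 ρ (1 : ℂ)] with x a b
    rw [a, b]; simp
  · change ‖Lp.const 2 ρ (1 : ℂ)‖ * ‖Lp.const 2 ρ (1 : ℂ)‖ ≤ 1
    rw [Lp.norm_const 2 ρ (1 : ℂ) (by norm_num)]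
    simp

theorem Rz_four (t : TT) : Rz (fun n => fourier n t) 1 := by
  simpa using Rz_meas (Measure.dirac t)

noncomputable def cz (σ : URep (Multiplicative ℤ)) (ξ η : σ.V) (n : ℤ) : ℂ := ⟪η, σ.π (ofAdd n) ξ⟫_ℂ

theorem Rz_cz (σ : URep (Multiplicative ℤ)) (ξ η : σ.V) : Rz (cz σ ξ η) (‖ξ‖ * ‖η‖) :=
  ⟨σ, ξ, η, rfl, le_rfl⟩

def Ap (σ : URep (Multiplicative ℤ)) (ξ : σ.V) : Prop :=
  ∀ ε > 0, ∃ (k : ℕ) (t : Fin k → TT) (v : Fin k → σ.V),
    (∀ i n, σ.π (ofAdd n) (v i) = fourier n (t i) • v i) ∧ ‖ξ - ∑ i, v i‖ < ε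

theorem decomp (σ : URep (Multiplicative ℤ)) (ξ η : σ.V) :
    ∃ a b : σ.V, ξ = a + b ∧ Ap σ a ∧ Wie fun n => ‖cz σ b η n‖ ^ 2 := by
  let S : Set σ.V := {v | ∃ w : ℂ, ‖w‖ = 1 ∧ σ.π (ofAdd 1) v = w • v}
  let K := (Submodule.span ℂ S).topologicalClosure
  refine ⟨K.starProjection ξ, ξ - K.starProjection ξ, by simp, fun ε hε => ?_,
    fun _ => by positivity, fun δ hδ => ?_⟩
  · obtain ⟨y, hy, h⟩ := Metric.mem_closure_iff.1 (K.starProjection_apply_mem ξ) ε hε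
    obtain ⟨k, c, g, rfl⟩ := Submodule.mem_span_set'.1 hy
    choose w h1 h2 using fun i => (g i).2
    choose t ht using fun i => exists_four (h1 i)
    refine ⟨k, t, fun i => c i • (g i).1, fun i n => ?_, by rwa [dist_eq_norm] at h⟩
    rw [map_smul, smul_comm]
    congr 1
    induction n using Int.induction_on with
    | zero => simp
    | succ n ih => rw [ofAdd_add, π_mul, h2, map_smul, ih, smul_smul, fourier_add, ht, mul_comm]
    | pred n ih =>
      have e : σ.π (ofAdd (-(n : ℤ))) (g i).1 = w i • σ.π (ofAdd (-(n : ℤ) - 1)) (g i).1 := by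
        rw [← map_smul, ← h2, ← π_mul, ← ofAdd_add, sub_add_cancel]
      have w0 : w i ≠ 0 := fun h => by simpa [h] using h1 i
      refine smul_right_injective _ w0 ?_
      simp only
      rw [← e, ih, smul_smul, ← ht, ← fourier_add]
      congr 2
      ring_nf
  · set b := ξ - K.starProjection ξ
    let T := Unitary.linearIsometryEquiv.symm (σ.π (ofAdd 1))
    have hT : ∀ v, T.1 v = σ.π (ofAdd 1) v := fun _ => rfl
    have hn : ∀ (n : ℕ) v, (T.1 ^ n) v = σ.π (ofAdd (n : ℤ)) v := by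
      intro n
      induction n with
      | zero => simp
      | succ n ih =>
        intro v
        rw [pow_succ, mul_apply_eq_comp, ih, hT, ← π_mul, ← ofAdd_add]
        rfl
    obtain ⟨M, M0, hM⟩ := MP_cd1425_an.wie T.2 (x := b) (fun w hw v hv =>
      K.sub_starProjection_mem_orthogonal ξ v
        (Submodule.le_topologicalClosure _ (Submodule.subset_span ⟨w, hw, hv⟩)))
      (δ := δ / (‖η‖ * ‖η‖ * ‖b‖ + 1)) (by positivity)
    refine ⟨M, M0, fun a => ?_⟩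
    have := hM (σ.π (ofAdd a)⁻¹ η)
    simp only [hn, ← π_inner, ← π_mul, ← ofAdd_add, LinearIsometryEquiv.norm_map] at this
    refine this.trans ?_
    have e : ‖η‖ * (‖η‖ * (M * (δ / (‖η‖ * ‖η‖ * ‖b‖ + 1))) * ‖b‖) =
        M * δ * (‖η‖ * ‖η‖ * ‖b‖ / (‖η‖ * ‖η‖ * ‖b‖ + 1)) := by
      field_simp
    rw [e]
    exact mul_le_of_le_one_right (by positivity) (div_le_one_of_le₀ (by linarith) (by positivity))

theorem Ap.dens {σ : URep (Multiplicative ℤ)} {ξ : σ.V} (h : Ap σ ξ) (η : σ.V) (ε : ℝ)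
    (hε : ε > 0) : Dens fun n => ∀ j, ‖cz σ ξ η (j + n) - cz σ ξ η j‖ ≤ ε := by
  set e := ε / (3 * (‖η‖ + 1)) with he
  have e0 : 0 < e := by positivity
  obtain ⟨k, t, v, h1, h2⟩ := h e e0
  have c : Continuous fun y : Fin k → TT => ‖∑ i, (fourier 1 (y i) • v i - v i)‖ := by fun_prop
  obtain ⟨δ, δ0, hδ⟩ := Metric.continuous_iff.1 c 0 e e0
  obtain ⟨M, M0, hM⟩ := bohr t δ0
  refine ⟨M, M0, fun L => ?_⟩
  obtain ⟨S, a1, a2, a3⟩ := hM L
  refine ⟨S, a1, a2, fun n hn j => ?_⟩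
  have b1 := hδ _ (a3 n hn)
  simp only [Pi.zero_apply, fourier_eval_zero, one_smul, sub_self, Finset.sum_const_zero,
    norm_zero, dist_zero_right, norm_norm, Pi.smul_apply, four_smul, one_mul, ← h1,
    Finset.sum_sub_distrib, ← map_sum] at b1
  have b2 : ‖σ.π (ofAdd (n : ℤ)) ξ - ξ‖ ≤ 3 * e := by
    have : σ.π (ofAdd (n : ℤ)) ξ - ξ = σ.π (ofAdd (n : ℤ)) (ξ - ∑ i, v i) +
        (σ.π (ofAdd (n : ℤ)) (∑ i, v i) - ∑ i, v i) + -(ξ - ∑ i, v i) := by
      rw [map_sub]; abel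
    rw [this]
    refine norm_add₃_le.trans ?_
    rw [LinearIsometryEquiv.norm_map, norm_neg]
    linarith
  rw [cz, cz, ofAdd_add, π_mul, ← inner_sub_right, ← map_sub]
  refine (norm_inner_le_norm _ _).trans ?_
  rw [LinearIsometryEquiv.norm_map]
  have b3 : (‖η‖ + 1) * (3 * e) = ε := by rw [he]; field_simp
  nlinarith [mul_le_mul_of_nonneg_left b2 (norm_nonneg η)]

variable {G : Type} [Group G] {s : G} (hs : Function.Injective fun n : ℤ => s ^ n)
include hs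

noncomputable def mk {c : ℤ → ℂ} {C : ℝ} (h : Rz c C) : BA G := ⟨ex s c, (Rp_ex hs h).mem⟩

theorem mk_Rp {c : ℤ → ℂ} {C : ℝ} (h : Rz c C) : Rp (mk hs h).1 C := Rp_ex (c := c) hs h

theorem mk_in {c : ℤ → ℂ} {C : ℝ} (h : Rz c C) (n : ℤ) : (mk hs h).1 (s ^ n) = c n :=
  hs.extend_apply _ _ n

theorem mk_out {c : ℤ → ℂ} {C : ℝ} (h : Rz c C) {g : G} (hg : ¬∃ n : ℤ, s ^ n = g) :
    (mk hs h).1 g = 0 := Function.extend_apply' _ _ _ hg

omit hs in
theorem BA_ext {a b : BA G} (h1 : ∀ n : ℤ, a.1 (s ^ n) = b.1 (s ^ n))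
    (h2 : ∀ g, (¬∃ n : ℤ, s ^ n = g) → a.1 g = b.1 g) : a = b := by
  refine Subtype.ext (funext fun g => ?_)
  by_cases c : ∃ n : ℤ, s ^ n = g
  · obtain ⟨n, rfl⟩ := c
    exact h1 n
  · exact h2 g c

omit hs in
theorem v_mul (a b : BA G) (g : G) : (a * b).1 g = a.1 g * b.1 g := rfl
omit hs in
theorem v_add (a b : BA G) (g : G) : (a + b).1 g = a.1 g + b.1 g := rfl
omit hs in
theorem v_sub (a b : BA G) (g : G) : (a - b).1 g = a.1 g - b.1 g := rfl
omit hs in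
theorem v_smul (c : ℂ) (b : BA G) (g : G) : (c • b).1 g = c * b.1 g := rfl
omit hs in
theorem v_sum {k : ℕ} (u : Fin k → BA G) (g : G) : (∑ i, u i).1 g = ∑ i, (u i).1 g := by
  induction (Finset.univ : Finset (Fin k)) using Finset.induction_on with
  | empty => rfl
  | insert a s ha ih => rw [Finset.sum_insert ha, Finset.sum_insert ha, v_add, ih]

theorem char_ap (χ : WeakDual.characterSpace ℂ (BA G)) (h1 : χ (mk hs (Rz_four 0)) = 1)
    {σ : URep (Multiplicative ℤ)} {ξ : σ.V} (h : Ap σ ξ) (η : σ.V) :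
    χ (mk hs (Rz_cz σ ξ η)) ∈ closure (Set.range (cz σ ξ η)) := by
  have hm : ∀ t u, χ (mk hs (Rz_four (t + u))) = χ (mk hs (Rz_four t)) * χ (mk hs (Rz_four u)) := by
    intro t u
    rw [← map_mul]
    congr 1
    exact BA_ext (s := s) (fun n => by simp only [v_mul, mk_in, four_add])
      fun g hg => by simp only [v_mul, mk_out hs _ hg, mul_zero]
  have hle : ∀ t, ‖χ (mk hs (Rz_four t))‖ ≤ 1 := fun t => char_le χ (mk_Rp hs (Rz_four t))
  have hn : ∀ t, ‖χ (mk hs (Rz_four t))‖ = 1 := fun t => by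
    have a := congrArg norm (hm t (-t))
    rw [add_neg_cancel, h1, norm_one, norm_mul] at a
    nlinarith [hle t, hle (-t), norm_nonneg (χ (mk hs (Rz_four t)))]
  choose x hx using fun t => exists_four (hn t)
  let Γ : TT →+ TT := AddMonoidHom.mk' x fun t u => four_inj (by rw [four_add, hx, hx, hx, hm])
  rw [Metric.mem_closure_iff]
  intro ε hε
  set e := ε / (2 * ‖η‖ + 1) with he
  have e0 : 0 < e := by positivity
  obtain ⟨k, t, v, a1, a2⟩ := h e e0
  have c : Continuous fun y : Fin k → TT => ∑ i, ⟪η, v i⟫_ℂ * fourier 1 (y i) := by fun_prop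
  obtain ⟨δ, δ0, hδ⟩ := Metric.continuous_iff.1 c (fun i => Γ (t i)) e e0
  obtain ⟨_, ⟨n, rfl⟩, hn'⟩ := Metric.mem_closure_iff.1 (kron t Γ) δ δ0
  have b1 := hδ _ (by rwa [dist_comm] at hn')
  have b0 : ∀ n, cz σ (ξ - ∑ i, v i) η n = cz σ ξ η n - ∑ i, ⟪η, v i⟫_ℂ * fourier n (t i) := by
    intro n
    simp only [cz, map_sub, map_sum, inner_sub_right, inner_sum, a1, inner_smul_right, mul_comm]
  have b2 : mk hs (Rz_cz σ (ξ - ∑ i, v i) η) =
      mk hs (Rz_cz σ ξ η) - ∑ i, ⟪η, v i⟫_ℂ • mk hs (Rz_four (t i)) :=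
    BA_ext (s := s) (fun n => by simp only [v_sub, v_sum, v_smul, mk_in, b0])
      fun g hg => by simp [v_sub, v_sum, v_smul, mk_out hs _ hg]
  have b3 := char_le χ (mk_Rp hs (Rz_cz σ (ξ - ∑ i, v i) η))
  have b4 := Rp.le (Rz_cz σ (ξ - ∑ i, v i) η) (ofAdd n)
  rw [b2, map_sub, map_sum] at b3
  simp only [map_smul, smul_eq_mul, ← hx] at b3
  simp only [toAdd_ofAdd, b0] at b4
  simp only [Pi.smul_apply, four_smul, one_mul] at b1
  refine ⟨_, ⟨n, rfl⟩, ?_⟩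
  rw [← dist_eq_norm] at b3 b4
  have b5 : ‖ξ - ∑ i, v i‖ * ‖η‖ ≤ e * ‖η‖ := mul_le_mul_of_nonneg_right a2.le (norm_nonneg _)
  have b6 : (2 * ‖η‖ + 1) * e = ε := by rw [he]; field_simp
  have b7 := dist_triangle4 (χ (mk hs (Rz_cz σ ξ η))) (∑ i, ⟪η, v i⟫_ℂ * fourier 1 (x (t i)))
    (∑ i, ⟪η, v i⟫_ℂ * fourier n (t i)) (cz σ ξ η n)
  rw [dist_comm] at b1 b4
  change dist (∑ i, ⟪η, v i⟫_ℂ * fourier 1 (x (t i))) _ < e at b1
  linarith

theorem main (f : BA G) : ∃ f₁ f₂ : BA G,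
    (∀ χ : WeakDual.characterSpace ℂ (BA G), χ f₁ ∈ closure (Set.range f₁.1)) ∧
    (∀ χ : WeakDual.characterSpace ℂ (BA G), χ f₂ ∈ closure (Set.range f₂.1)) ∧ f = f₁ + f₂ := by
  obtain ⟨ρ, ξ, η, hf⟩ := f.2
  let σ : URep (Multiplicative ℤ) := { ρ with π := ρ.π.comp (zpowersHom G s) }
  obtain ⟨a, b, hab, ha, hb⟩ := decomp σ ξ η
  obtain ⟨ν, h1, h2⟩ := core (cz σ a η) (cz σ b η) hb (ha.dens η)
  have := ν.2
  have fs : ∀ n : ℤ, f.1 (s ^ n) = cz σ a η n + cz σ b η n := fun n => by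
    rw [hf, cz, cz, ← inner_add_right, ← map_add, ← hab]
    rfl
  set C := ‖ξ‖ * ‖η‖
  have hC : Rp f.1 C := ⟨ρ, ξ, η, hf, le_rfl⟩
  set R : ℝ := C + ‖cz σ a η 0‖ + 1 with hR
  have R0 : 0 < R := by positivity
  let P := mk hs (Rz_meas ν.1)
  have hP : ∀ χ : WeakDual.characterSpace ℂ (BA G), ‖χ P‖ ≤ 1 := fun χ =>
    char_le χ (mk_Rp hs (Rz_meas ν.1))
  have nR : ‖(R : ℂ)‖ = R := by rw [Complex.norm_real, Real.norm_of_nonneg R0.le]
  have k1 : ∀ y ∈ closure (Set.range (cz σ a η)), ∀ z : ℂ, ‖z‖ ≤ 1 →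
      y - R * z ∈ closure (Set.range (f - (R : ℂ) • P).1) := by
    intro y hy z hz
    rw [← closure_closure]
    refine map_mem_closure (f := fun y => y - R * z) (by fun_prop) hy ?_
    rintro _ ⟨j, rfl⟩
    rw [Metric.mem_closure_iff]
    intro ε hε
    obtain ⟨n, c1, c2, c3⟩ := h2 j z hz (ε / (R + 3)) (by positivity)
    refine ⟨_, ⟨s ^ n, rfl⟩, ?_⟩
    rw [v_sub, v_smul, fs, mk_in, dist_comm, dist_eq_norm]
    have : cz σ a η n + cz σ b η n - R * ∫ x, fourier n x ∂ν.1 - (cz σ a η j - R * z) =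
        (cz σ a η n - cz σ a η j) + cz σ b η n + -(R * (∫ x, fourier n x ∂ν.1 - z)) := by ring
    rw [this]
    refine norm_add₃_le.trans_lt ?_
    rw [norm_neg, norm_mul, nR]
    have e : (R + 3) * (ε / (R + 3)) = ε := by field_simp
    have : 0 < ε / (R + 3) := by positivity
    nlinarith [mul_le_mul_of_nonneg_left c1 R0.le]
  have k2 : ∀ y : ℂ, ‖y‖ ≤ C → y ∈ closure (Set.range (f - (R : ℂ) • P).1) := by
    intro y hy
    have R1 : (R : ℂ) ≠ 0 := by exact_mod_cast R0.ne'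
    have := k1 _ (subset_closure ⟨0, rfl⟩) ((cz σ a η 0 - y) / R) (by
      rw [norm_div, nR, div_le_one R0]
      linarith [norm_sub_le (cz σ a η 0) y])
    rwa [mul_div_cancel₀ _ R1, sub_sub_cancel] at this
  refine ⟨f - (R : ℂ) • P, (R : ℂ) • P, fun χ => ?_, fun χ => ?_, by simp⟩
  · rcases char_l2 χ with ⟨g, hg⟩ | hl
    · exact subset_closure ⟨g, (hg _).symm⟩
    by_cases p0 : χ P = 0
    · rw [map_sub, map_smul, p0, smul_zero, sub_zero]
      exact k2 _ (char_le χ hC)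
    have e1 : χ (mk hs (Rz_four 0)) = 1 := by
      refine mul_left_cancel₀ p0 ?_
      rw [← map_mul, mul_one]
      congr 1
      exact BA_ext (s := s) (fun n => by simp only [v_mul, mk_in, fourier_eval_zero, mul_one])
        fun g hg => by simp only [P, v_mul, mk_out hs _ hg, mul_zero]
    have e2 : χ (mk hs (Rz_cz σ b η)) = 0 := by
      refine (mul_eq_zero.1 ?_).resolve_left p0
      rw [← map_mul]
      refine hl _ ((hs.summable_iff fun g hg => ?_).1 (h1.congr fun n => ?_))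
      · rw [v_mul, mk_out hs (Rz_cz σ b η) hg]; simp
      · simp only [Function.comp_apply, P, v_mul, mk_in]
    have e3 : f * mk hs (Rz_four 0) = mk hs (Rz_cz σ a η) + mk hs (Rz_cz σ b η) :=
      BA_ext (s := s) (fun n => by simp only [v_mul, v_add, mk_in, fourier_eval_zero, mul_one, fs])
        fun g hg => by simp only [v_mul, v_add, mk_out hs _ hg, mul_zero, add_zero]
    have e4 := congrArg χ e3
    rw [map_mul, e1, mul_one, map_add, e2, add_zero] at e4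
    rw [map_sub, map_smul, e4, smul_eq_mul]
    exact k1 _ (char_ap hs χ e1 ha η) _ (hP χ)
  · rw [map_smul, smul_eq_mul, Metric.mem_closure_iff]
    intro ε hε
    obtain ⟨n, c1, -, -⟩ := h2 0 _ (hP χ) (ε / (R + 1)) (by positivity)
    refine ⟨_, ⟨s ^ n, rfl⟩, ?_⟩
    rw [v_smul, mk_in, dist_comm, dist_eq_norm, ← mul_sub, norm_mul, nR]
    have e : (R + 1) * (ε / (R + 1)) = ε := by field_simp
    have : 0 < ε / (R + 1) := by positivity
    nlinarith [mul_le_mul_of_nonneg_left c1 R0.le]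

omit hs in
theorem BG_eq : {f : G → ℂ | ∃ (H : Type) (_ : NormedAddCommGroup H) (_ : InnerProductSpace ℂ H)
    (_ : CompleteSpace H) (π : G →* unitary (H →L[ℂ] H)) (ξ η : H),
    ∀ g : G, f g = inner ℂ η ((π g : H →L[ℂ] H) ξ)} = BG G := by
  ext f
  constructor
  · rintro ⟨H, _, _, _, π, ξ, η, h⟩
    exact ⟨⟨H, Unitary.linearIsometryEquiv.toMonoidHom.comp π⟩, ξ, η, funext h⟩
  · rintro ⟨ρ, ξ, η, rfl⟩
    exact ⟨ρ.V, _, _, inferInstance, Unitary.linearIsometryEquiv.symm.toMonoidHom.comp ρ.π, ξ, η,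
      fun _ => rfl⟩

end Pool.Agent.H.MP_9fb650_an
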